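import Pool.Agent.R498.MP.PU9

/-!
# Strings of consecutive primes in a residue class with almost prime values of several polynomials, uniformly

The theorem of the starting library `Pool.Agent.R498.MP.stringsUR` for a product of polynomials.
-/

set_option autoImplicit false

namespace Pool.Agent.L5helper4.SR

open Finset Filter Polynomial
open Pool.Agent.R498.MP

/-- a divisor of an almost prime is almost prime -/
theorem apz_dvd {r : ℕ} {w : ℝ} {a b : ℤ} (hab : a ∣ b) (h : APZ r w b) : APZ r w a := by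
  obtain ⟨h0, h1, h2⟩ := h
  have ha : a ≠ 0 := by
    rintro rfl
    exact h0 (zero_dvd_iff.1 hab)
  refine ⟨ha, ?_, fun p hp hpa => h2 p hp (hpa.trans hab)⟩
  have h3 : a.natAbs ∣ b.natAbs := Int.natAbs_dvd_natAbs.2 hab
  obtain ⟨c, hc⟩ := h3
  have hb : b.natAbs ≠ 0 := Int.natAbs_ne_zero.2 h0
  have hc0 : c ≠ 0 := by
    rintro rfl
    exact hb (by rw [hc, mul_zero])
  have h4 := (Nat.perm_primeFactorsList_mul (Int.natAbs_ne_zero.2 ha) hc0).length_eq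
  rw [← hc, List.length_append] at h4
  omega

/-- **Strings of consecutive primes in a residue class with almost prime values of several polynomials,
uniformly in the polynomials.** -/
theorem strings_fam (k D q : ℕ) (hq : Squarefree q) (m : ℕ) :
    ∃ (K B : ℕ) (δ : ℝ), 0 < δ ∧ ∀ A : ℕ, ∃ r : ℕ, ∀ S : Finset ℕ, K ≤ S.card →
      ∀ᶠ N : ℕ in atTop, ∀ F : Fin k → ℤ[X], (∀ i, (F i).natDegree ≤ D) →
      (∀ p : ℕ, p.Prime → ∃ n : ℤ, ¬ (p : ℤ) ∣ n * ∏ i, (F i).eval n) →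
      (∀ i, ∀ x : ℤ, |x| ≤ 2 * N → |(F i).eval x| ≤ (N : ℤ) ^ A) →
      (∀ i, ∀ x : ℤ, x ≠ 0 → |x| ≤ S.sup id → (F i).eval x ≠ 0) →
      ∀ a : ℕ, (∀ p : ℕ, p.Prime → p ∣ q → ¬ (p : ℤ) ∣ (a : ℤ) * ∏ i, (F i).eval (a : ℤ)) →
      ∃ H ⊆ S, m ≤ H.card ∧ ∃ T : Finset ℕ, (N : ℝ) ≤ Real.log N ^ B * T.card ∧
        ∀ n ∈ T, N < n ∧ n + S.sup id ≤ 2 * N ∧ (∀ y ≤ S.sup id, (n + y).Prime ↔ y ∈ H) ∧
          ∀ h ∈ H, n + h ≡ a [MOD q] ∧ ∀ i, APZ r ((N : ℝ) ^ δ) ((F i).eval ((n + h : ℕ) : ℤ)) := by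
  obtain ⟨K, B, δ, hδ, h1⟩ := stringsUR (k * D) q hq m
  refine ⟨K, B, δ, hδ, fun A => ?_⟩
  obtain ⟨r, h2⟩ := h1 (k * A)
  refine ⟨r, fun S hS => ?_⟩
  filter_upwards [h2 S hS, eventually_ge_atTop 1] with N h3 hN1
  intro F hdeg hadm hbd hz a ha
  have hev : ∀ x : ℤ, (∏ i, F i).eval x = ∏ i, (F i).eval x := fun x => by
    rw [eval_prod]
  have hN0 : (1 : ℤ) ≤ N := by exact_mod_cast hN1
  have e1 : (∏ i, F i).natDegree ≤ k * D := by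
    refine (natDegree_prod_le _ _).trans ((sum_le_sum fun i _ => hdeg i).trans ?_)
    simp
  have e2 : ∀ p : ℕ, p.Prime → ∃ n : ℤ, ¬ (p : ℤ) ∣ n * (∏ i, F i).eval n := by
    intro p hp
    obtain ⟨n, hn⟩ := hadm p hp
    exact ⟨n, by rwa [hev]⟩
  have e3 : ∀ x : ℤ, |x| ≤ 2 * N → |(∏ i, F i).eval x| ≤ (N : ℤ) ^ (k * A) := by
    intro x hx
    rw [hev, abs_prod]
    calc ∏ i, |(F i).eval x| ≤ ∏ _i : Fin k, (N : ℤ) ^ A :=
          prod_le_prod (fun i _ => abs_nonneg _) fun i _ => hbd i x hx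
      _ = (N : ℤ) ^ (k * A) := by
          rw [prod_const, card_univ, Fintype.card_fin, ← pow_mul, mul_comm]
  have e4 : ∀ x : ℤ, x ≠ 0 → |x| ≤ S.sup id → (∏ i, F i).eval x ≠ 0 := by
    intro x hx0 hx
    rw [hev]
    exact prod_ne_zero_iff.2 fun i _ => hz i x hx0 hx
  have e5 : ∀ p : ℕ, p.Prime → p ∣ q → ¬ (p : ℤ) ∣ (a : ℤ) * (∏ i, F i).eval (a : ℤ) := by
    intro p hp hpq
    rw [hev]
    exact ha p hp hpq
  obtain ⟨H, hHS, hHm, T, hT, h4⟩ := h3 (∏ i, F i) e1 e2 e3 e4 a e5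
  refine ⟨H, hHS, hHm, T, hT, fun n hn => ?_⟩
  obtain ⟨h5, h6, h7, h8⟩ := h4 n hn
  refine ⟨h5, h6, h7, fun h hh => ⟨(h8 h hh).1, fun i => ?_⟩⟩
  refine apz_dvd ?_ (h8 h hh).2
  rw [hev]
  exact dvd_prod_of_mem _ (mem_univ i)

/-- the natural number form of `APZ` -/
theorem apz_nat {r : ℕ} {w : ℝ} {n : ℕ} (h : APZ r w (n : ℤ)) :
    n.primeFactorsList.length ≤ r ∧ ∀ p : ℕ, p.Prime → p ∣ n → w ≤ p := by
  obtain ⟨_, h1, h2⟩ := h
  rw [Int.natAbs_natCast] at h1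
  exact ⟨h1, fun p hp hpn => h2 p hp (Int.natCast_dvd_natCast.2 hpn)⟩

end Pool.Agent.L5helper4.SR
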