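import Pool.Agent.L5helper4.SR.Base

/-!
# Runs of primes in a residue class with almost prime values of several polynomials, uniformly

The theorem of the starting library `Pool.Agent.R498.MP.stringsU` for a product of polynomials. Here the
polynomials may have small integer zeros, which may force further primes in the window.
-/

set_option autoImplicit false

namespace Pool.Agent.L5helper4.SR

open Finset Filter Polynomial
open Pool.Agent.R498.MP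

/-- **Runs of primes in a residue class with almost prime values of several polynomials, uniformly in the
polynomials.** -/
theorem runs_fam (k D q : ℕ) (hq : Squarefree q) (m : ℕ) :
    ∃ (K B : ℕ) (δ : ℝ), 0 < δ ∧ ∀ A : ℕ, ∃ r : ℕ, ∀ S : Finset ℕ, K ≤ S.card →
      ∀ᶠ N : ℕ in atTop, ∀ F : Fin k → ℤ[X], (∀ i, (F i).natDegree ≤ D) →
      (∀ p : ℕ, p.Prime → ∃ n : ℤ, ¬ (p : ℤ) ∣ n * ∏ i, (F i).eval n) →
      (∀ i, ∀ x : ℤ, |x| ≤ 2 * N → |(F i).eval x| ≤ (N : ℤ) ^ A) →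
      ∀ a : ℕ, (∀ p : ℕ, p.Prime → p ∣ q → ¬ (p : ℤ) ∣ (a : ℤ) * ∏ i, (F i).eval (a : ℤ)) →
      ∃ H ⊆ S, m ≤ H.card ∧ ∃ T : Finset ℕ, (N : ℝ) ≤ Real.log N ^ B * T.card ∧
        ∀ n ∈ T, N < n ∧ n + S.sup id ≤ 2 * N ∧
          (∀ h ∈ H, (n + h).Prime ∧ n + h ≡ a [MOD q] ∧
            ∀ i, APZ r ((N : ℝ) ^ δ) ((F i).eval ((n + h : ℕ) : ℤ))) ∧
          ∀ y ≤ S.sup id, y ∉ H → (∀ h ∈ S, h ≠ y → ∀ i, (F i).eval ((h : ℤ) - y) ≠ 0) →
            ¬ (n + y).Prime := by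
  obtain ⟨K, B, δ, hδ, h1⟩ := stringsU (k * D) q hq m
  refine ⟨K, B, δ, hδ, fun A => ?_⟩
  obtain ⟨r, h2⟩ := h1 (k * A)
  refine ⟨r, fun S hS => ?_⟩
  filter_upwards [h2 S hS, eventually_ge_atTop 1] with N h3 hN1
  intro F hdeg hadm hbd a ha
  have hev : ∀ x : ℤ, (∏ i, F i).eval x = ∏ i, (F i).eval x := fun x => by
    rw [eval_prod]
  have hN0 : (1 : ℤ) ≤ N := by exact_mod_cast hN1
  have e1 : (∏ i, F i).natDegree ≤ k * D := by
    refine (natDegree_prod_le _ _).trans ((sum_le_sum fun i _ => hdeg i).trans ?_)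
    simp
  have e2 : ∀ p : ℕ, p.Prime → ∃ n : ℤ, ¬ (p : ℤ) ∣ n * (∏ i, F i).eval n := by
    intro p hp
    obtain ⟨n, hn⟩ := hadm p hp
    exact ⟨n, by rwa [hev]⟩
  have e3 : ∀ x : ℤ, |x| ≤ 2 * N → |(∏ i, F i).eval x| ≤ (N : ℤ) ^ (k * A) := by
    intro x hx
    rw [hev, abs_prod]
    calc ∏ i, |(F i).eval x| ≤ ∏ _i : Fin k, (N : ℤ) ^ A :=
          prod_le_prod (fun i _ => abs_nonneg _) fun i _ => hbd i x hx
      _ = (N : ℤ) ^ (k * A) := by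
          rw [prod_const, card_univ, Fintype.card_fin, ← pow_mul, mul_comm]
  have e5 : ∀ p : ℕ, p.Prime → p ∣ q → ¬ (p : ℤ) ∣ (a : ℤ) * (∏ i, F i).eval (a : ℤ) := by
    intro p hp hpq
    rw [hev]
    exact ha p hp hpq
  obtain ⟨H, hHS, hHm, T, hT, h4⟩ := h3 (∏ i, F i) e1 e2 e3 a e5
  refine ⟨H, hHS, hHm, T, hT, fun n hn => ?_⟩
  obtain ⟨h5, h6, h7, h8⟩ := h4 n hn
  refine ⟨h5, h6, fun h hh => ⟨(h7 h hh).1, (h7 h hh).2.1, fun i => ?_⟩, fun y hy hyH hz => ?_⟩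
  · refine apz_dvd ?_ (h7 h hh).2.2
    rw [hev]
    exact dvd_prod_of_mem _ (mem_univ i)
  · refine h8 y hy hyH fun h hh hhy => ?_
    rw [hev]
    exact prod_ne_zero_iff.2 fun i _ => hz h hh hhy i

end Pool.Agent.L5helper4.SR
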